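import Pool.Agent.H36.CH.Dih2

/-! The counting lemma. -/

namespace H36.CH

open Subgroup Pointwise

variable {G : Type*} [Group G]

/-- Choosing a pairwise separated system of representatives of infinite sets. -/
theorem exists_separated {X ι : Type*} [DecidableEq ι] (x0 : X) (V : ι → Set X) (S : Set X)
    (bad : X → X → Prop) (hsymm : ∀ x y, bad x y → bad y x)
    (hbad : ∀ x ∈ S, {y | y ∈ S ∧ bad x y}.Finite) (I : Finset ι)
    (hV : ∀ i ∈ I, (V i).Infinite) (hVS : ∀ i ∈ I, V i ⊆ S) :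
    ∃ f : ι → X, (∀ i ∈ I, f i ∈ V i) ∧ ∀ i ∈ I, ∀ j ∈ I, i ≠ j → f i ≠ f j ∧ ¬ bad (f i) (f j) := by
  classical
  induction I using Finset.induction_on with
  | empty =>
    exact ⟨fun _ => x0, fun i hi => absurd hi (Finset.notMem_empty i),
      fun i hi => absurd hi (Finset.notMem_empty i)⟩
  | insert a I ha ih =>
    obtain ⟨f, hf1, hf2⟩ := ih (fun i hi => hV i (Finset.mem_insert_of_mem hi))
      (fun i hi => hVS i (Finset.mem_insert_of_mem hi))
    have hfin : (⋃ i ∈ I, ({f i} ∪ {y | y ∈ S ∧ bad (f i) y})).Finite := by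
      refine Set.Finite.biUnion I.finite_toSet ?_
      intro i hi
      exact (Set.finite_singleton _).union
        (hbad _ (hVS i (Finset.mem_insert_of_mem hi) (hf1 i hi)))
    obtain ⟨x, hx, hx2⟩ := (hV a (Finset.mem_insert_self a I)).exists_notMem_finite hfin
    have hx3 : ∀ i ∈ I, x ≠ f i ∧ ¬ bad (f i) x := by
      intro i hi
      constructor
      · intro he
        apply hx2
        exact Set.mem_biUnion hi (Or.inl he)
      · intro hb
        apply hx2
        exact Set.mem_biUnion hi (Or.inr ⟨hVS a (Finset.mem_insert_self a I) hx, hb⟩)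
    refine ⟨Function.update f a x, ?_, ?_⟩
    · intro i hi
      rw [Finset.mem_insert] at hi
      by_cases hia : i = a
      · rw [hia, Function.update_self]
        exact hx
      · rw [Function.update_of_ne hia]
        exact hf1 i (hi.resolve_left hia)
    · intro i hi j hj hij
      rw [Finset.mem_insert] at hi hj
      by_cases hia : i = a
      · have hja : j ≠ a := fun h => hij (hia.trans h.symm)
        have hjI := hj.resolve_left hja
        rw [hia, Function.update_self, Function.update_of_ne hja]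
        exact ⟨(hx3 j hjI).1, fun h => (hx3 j hjI).2 (hsymm _ _ h)⟩
      · have hiI := hi.resolve_left hia
        by_cases hja : j = a
        · rw [hja, Function.update_self, Function.update_of_ne hia]
          exact ⟨(hx3 i hiI).1.symm, (hx3 i hiI).2⟩
        · rw [Function.update_of_ne hia, Function.update_of_ne hja]
          exact hf2 i hiI j (hj.resolve_left hja) hij

/-- The double counting argument. -/
theorem double_count {ι : Type*} [DecidableEq G] (L : Finset G) (I : Finset ι) (D : Finset G)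
    (f : ι → G) (R : ι → G → Prop) [∀ i p, Decidable (R i p)] (C : ℕ)
    (hmul : ∀ i ∈ I, ∀ x ∈ L, (f i) * x ∈ L) (hinv : ∀ i ∈ I, ∀ x ∈ L, (f i)⁻¹ * x ∈ L)
    (hup : ∀ p ∈ L, p ∉ D → (I.filter (fun i => R i p)).card ≤ C)
    (hlow : ∀ p ∈ L, C + 1 ≤ (I.filter (fun i => R i ((f i)⁻¹ * p))).card) :
    L.card ≤ I.card * D.card := by
  classical
  have e1 : ∑ p ∈ L, (I.filter (fun i => R i p)).card =
      ∑ p ∈ L, (I.filter (fun i => R i ((f i)⁻¹ * p))).card := by
    simp only [Finset.card_filter]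
    rw [Finset.sum_comm, Finset.sum_comm (s := L)]
    refine Finset.sum_congr rfl ?_
    intro i hi
    refine Finset.sum_nbij' (fun p => f i * p) (fun p => (f i)⁻¹ * p) ?_ ?_ ?_ ?_ ?_
    · intro p hp
      exact hmul i hi p hp
    · intro p hp
      exact hinv i hi p hp
    · intro p _
      exact inv_mul_cancel_left _ _
    · intro p _
      exact mul_inv_cancel_left _ _
    · intro p _
      rw [inv_mul_cancel_left]
  have e2 : (C + 1) * L.card ≤ ∑ p ∈ L, (I.filter (fun i => R i ((f i)⁻¹ * p))).card := by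
    have := Finset.card_nsmul_le_sum L (fun p => (I.filter (fun i => R i ((f i)⁻¹ * p))).card)
      (C + 1) hlow
    rw [smul_eq_mul, mul_comm] at this
    exact this
  have e3 : ∑ p ∈ L, (I.filter (fun i => R i p)).card ≤ C * L.card + I.card * D.card := by
    have h1 : ∀ p ∈ L, (I.filter (fun i => R i p)).card ≤ C + (if p ∈ D then I.card else 0) := by
      intro p hp
      by_cases hpD : p ∈ D
      · rw [if_pos hpD]
        exact (Finset.card_filter_le _ _).trans (Nat.le_add_left _ _)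
      · rw [if_neg hpD, add_zero]
        exact hup p hp hpD
    refine (Finset.sum_le_sum h1).trans ?_
    rw [Finset.sum_add_distrib, Finset.sum_const, smul_eq_mul, mul_comm L.card C]
    refine Nat.add_le_add_left ?_ _
    rw [← Finset.sum_filter, Finset.sum_const, smul_eq_mul, mul_comm]
    refine Nat.mul_le_mul_left _ (Finset.card_le_card ?_)
    intro x hx
    exact (Finset.mem_filter.mp hx).2
  rw [← e1] at e2
  have e4 := e2.trans e3
  rw [Nat.add_mul, one_mul] at e4
  omega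

/-- THE COUNTING LEMMA. -/
theorem counting {A B : Subgroup G} {α β : G → G} (d : Dec A B α β) (K : Subgroup G)
    (hKA : K ≤ A) (T : Set G) (hTA : T ⊆ A) (hTi : ∀ τ ∈ T, τ * τ = 1) (t : G)
    (htK : ∀ k ∈ K, t * k ∈ T) (hKinf : (K : Set G).Infinite)
    (R : Finset G) (hRA : ∀ r ∈ R, r ∈ A) (hR : ∀ a ∈ A, ∃ r ∈ R, a * r⁻¹ ∈ K)
    (hLF : ∀ S : Finset G, (∀ x ∈ S, x ∈ A) → ∃ L : Finset G, S ⊆ L ∧ (∀ x ∈ L, x ∈ A) ∧
      (∀ x ∈ L, ∀ y ∈ L, x * y ∈ L) ∧ ∀ x ∈ L, x⁻¹ ∈ L)
    (b : G) (C : ℕ) (D2 : Set G) (hD2 : D2.Finite)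
    (h2 : ∀ p ∈ A, p ∉ D2 → ∃ E : Finset G, E.card ≤ C ∧
      ∀ g, g ∈ B → p⁻¹ * g * p ∈ B → g ∈ E)
    (h3 : ∀ x ∈ A, {x' | x' ∈ A ∧ ¬ ({g | (b * x) * g * (b * x)⁻¹ ∈ A ∧
      (b * x') * g * (b * x')⁻¹ ∈ A}).Finite}.Finite) : False := by
  classical
  -- the infinite sets
  let V : G × Fin (C + 1) → Set G := fun i => {x | ∃ k ∈ K, x = α (b⁻¹ * (t * k * i.1))}
  let I : Finset (G × Fin (C + 1)) := R ×ˢ Finset.univ
  have hIR : ∀ i ∈ I, i.1 ∈ R := fun i hi => (Finset.mem_product.mp hi).1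
  have hαβ : ∀ g g', α g = α g' → g⁻¹ * g' ∈ B := by
    intro g g' he
    have h1 : g⁻¹ * g' = (β g)⁻¹ * β g' := by
      calc g⁻¹ * g' = (α g * β g)⁻¹ * (α g' * β g') := by rw [← d.he g, ← d.he g']
        _ = _ := by rw [he]; group
    rw [h1]
    exact B.mul_mem (B.inv_mem (d.hb g)) (d.hb g')
  have hV : ∀ i ∈ I, (V i).Infinite := by
    intro i hi
    have h1 : V i = (fun k => α (b⁻¹ * (t * k * i.1))) '' (K : Set G) := by
      ext x
      constructor
      · rintro ⟨k, hk, rfl⟩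
        exact ⟨k, hk, rfl⟩
      · rintro ⟨k, hk, rfl⟩
        exact ⟨k, hk, rfl⟩
    rw [h1]
    refine hKinf.image ?_
    intro k hk k' hk' he
    have h2 := hαβ _ _ he
    have h3 : (b⁻¹ * (t * k * i.1))⁻¹ * (b⁻¹ * (t * k' * i.1)) = i.1⁻¹ * (k⁻¹ * k') * i.1 := by
      group
    rw [h3] at h2
    have h4 : i.1⁻¹ * (k⁻¹ * k') * i.1 ∈ A :=
      A.mul_mem (A.mul_mem (A.inv_mem (hRA _ (hIR i hi))) (A.mul_mem (A.inv_mem (hKA hk))
        (hKA hk'))) (hRA _ (hIR i hi))
    have h5 := d.triv _ h4 h2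
    have h6 : k⁻¹ * k' = 1 := by
      calc k⁻¹ * k' = i.1 * (i.1⁻¹ * (k⁻¹ * k') * i.1) * i.1⁻¹ := by group
        _ = 1 := by rw [h5]; group
    exact inv_mul_eq_one.mp h6
  have hVA : ∀ i ∈ I, V i ⊆ (A : Set G) := by
    rintro i _ x ⟨k, _, rfl⟩
    exact d.ha _
  obtain ⟨f, hf1, hf2⟩ := exists_separated (1 : G) V (A : Set G)
    (fun x x' => ¬ ({g | (b * x) * g * (b * x)⁻¹ ∈ A ∧ (b * x') * g * (b * x')⁻¹ ∈ A}).Finite)
    (by
      intro x y hxy hc
      apply hxy
      refine hc.subset ?_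
      rintro g ⟨h1, h2⟩
      exact ⟨h2, h1⟩) h3 I hV hVA
  let Rel : G × Fin (C + 1) → G → Prop := fun i p =>
    ∃ τ ∈ T, p⁻¹ * ((b * f i)⁻¹ * τ * (b * f i)) ∈ B
  -- the exceptional set
  let D1 : Set G := ⋃ i ∈ I, ⋃ j ∈ I, ⋃ (_ : i ≠ j), α '' {g | (b * f i) * g * (b * f i)⁻¹ ∈ A ∧
    (b * f j) * g * (b * f j)⁻¹ ∈ A}
  have hD1 : D1.Finite := by
    refine Set.Finite.biUnion I.finite_toSet ?_
    intro i hi
    refine Set.Finite.biUnion I.finite_toSet ?_
    intro j hj
    refine Set.finite_iUnion ?_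
    intro hij
    refine Set.Finite.image _ ?_
    by_contra hc
    exact (hf2 i hi j hj hij).2 hc
  let D : Finset G := (hD1.union hD2).toFinset
  -- a large finite subgroup
  have hAinf : (A : Set G).Infinite := hKinf.mono hKA
  obtain ⟨E', hE', hcard⟩ := hAinf.exists_subset_card_eq (I.card * D.card + 1)
  obtain ⟨L, hL1, hLA, hLm, hLi⟩ := hLF (I.image f ∪ E') (by
    intro x hx
    rcases Finset.mem_union.mp hx with h1 | h1
    · obtain ⟨i, hi, rfl⟩ := Finset.mem_image.mp h1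
      exact hVA i hi (hf1 i hi)
    · exact hE' h1)
  have hfL : ∀ i ∈ I, f i ∈ L := fun i hi =>
    hL1 (Finset.mem_union_left _ (Finset.mem_image_of_mem f hi))
  have hLbig : I.card * D.card < L.card := by
    have h1 : E' ⊆ L := fun x hx => hL1 (Finset.mem_union_right _ hx)
    have h2 := Finset.card_le_card h1
    omega
  refine absurd (double_count L I D f Rel C (fun i hi x hx => hLm _ (hfL i hi) _ hx)
    (fun i hi x hx => hLm _ (hLi _ (hfL i hi)) _ hx) ?_ ?_) (not_le.mpr hLbig)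
  · -- upper bound
    intro p hp hpD
    have hpD1 : p ∉ D1 := fun h => hpD (by
      rw [Set.Finite.mem_toFinset]; exact Or.inl h)
    have hpD2 : p ∉ D2 := fun h => hpD (by
      rw [Set.Finite.mem_toFinset]; exact Or.inr h)
    obtain ⟨E, hE, hE2⟩ := h2 p (hLA p hp) hpD2
    by_cases hemp : (I.filter (fun i => Rel i p)) = ∅
    · rw [hemp, Finset.card_empty]
      exact Nat.zero_le _
    · obtain ⟨i0, hi0⟩ := Finset.nonempty_iff_ne_empty.mpr hemp
      have hex : ∀ i, ∃ e : G, i ∈ I.filter (fun i => Rel i p) →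
          (b * f i) * e * (b * f i)⁻¹ ∈ A ∧ e * e = 1 ∧ p⁻¹ * e ∈ B := by
        intro i
        by_cases hi : i ∈ I.filter (fun i => Rel i p)
        · obtain ⟨τ, hτ, hτ2⟩ := (Finset.mem_filter.mp hi).2
          refine ⟨(b * f i)⁻¹ * τ * (b * f i), fun _ => ⟨?_, ?_, hτ2⟩⟩
          · have h1 : b * f i * ((b * f i)⁻¹ * τ * (b * f i)) * (b * f i)⁻¹ = τ := by group
            rw [h1]
            exact hTA hτ
          · calc (b * f i)⁻¹ * τ * (b * f i) * ((b * f i)⁻¹ * τ * (b * f i)) =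
                (b * f i)⁻¹ * (τ * τ) * (b * f i) := by group
              _ = 1 := by rw [hTi τ hτ]; group
        · exact ⟨1, fun h => absurd h hi⟩
      choose e he using hex
      refine le_trans (Finset.card_le_card_of_injOn (fun i => e i0 * e i) ?_ ?_) hE
      · intro i hi
        rw [Finset.mem_coe] at hi
        obtain ⟨-, h1, h2⟩ := he i hi
        obtain ⟨-, h3, h4⟩ := he i0 hi0
        have h5 : (e i0)⁻¹ = e i0 := inv_eq_of_mul_eq_one_right h3
        have h6 : (e i)⁻¹ = e i := inv_eq_of_mul_eq_one_right h1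
        refine hE2 _ ?_ ?_
        · have h7 : e i0 * e i = (p⁻¹ * e i0)⁻¹ * (p⁻¹ * e i) := by
            rw [mul_inv_rev, h5]; group
          show e i0 * e i ∈ B
          rw [h7]
          exact B.mul_mem (B.inv_mem h4) h2
        · have h7 : p⁻¹ * (e i0 * e i) * p = (p⁻¹ * e i0) * (p⁻¹ * e i)⁻¹ := by
            rw [mul_inv_rev, h6]; group
          show p⁻¹ * (e i0 * e i) * p ∈ B
          rw [h7]
          exact B.mul_mem h4 (B.inv_mem h2)
      · intro i hi j hj hij
        rw [Finset.mem_coe] at hi hj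
        have h1 : e i = e j := mul_left_cancel hij
        by_contra hne
        apply hpD1
        have hiI := (Finset.mem_filter.mp hi).1
        have hjI := (Finset.mem_filter.mp hj).1
        have hpe : α (e i) = p := by
          refine (d.uniq (hLA p hp) (he i hi).2.2 ?_).1
          rw [mul_inv_cancel_left]
        refine Set.mem_biUnion hiI (Set.mem_biUnion hjI ?_)
        rw [Set.mem_iUnion]
        refine ⟨hne, e i, ⟨(he i hi).1, ?_⟩, hpe⟩
        rw [h1]
        exact (he j hj).1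
  · -- lower bound
    intro p hp
    have key : ∀ x τ : G, τ⁻¹ = τ → (x⁻¹ * p)⁻¹ * ((b * x)⁻¹ * τ * (b * x)) =
        (x⁻¹ * (b⁻¹ * τ * (b * p)))⁻¹ := by
      intro x τ h
      calc (x⁻¹ * p)⁻¹ * ((b * x)⁻¹ * τ * (b * x)) = p⁻¹ * b⁻¹ * τ * b * x := by group
        _ = p⁻¹ * b⁻¹ * τ⁻¹ * b * x := by rw [h]
        _ = _ := by group
    obtain ⟨r, hr, hrK⟩ := hR (α (b * p)) (d.ha _)
    have h1 : (Finset.univ.image (fun c : Fin (C + 1) => (r, c))).card = C + 1 := by
      rw [Finset.card_image_of_injective _ (fun c c' h => (Prod.mk.inj h).2), Finset.card_univ,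
        Fintype.card_fin]
    refine h1.symm.le.trans (Finset.card_le_card ?_)
    intro i hi
    obtain ⟨c, -, rfl⟩ := Finset.mem_image.mp hi
    have hiI : (r, c) ∈ I := Finset.mem_product.mpr ⟨hr, Finset.mem_univ _⟩
    rw [Finset.mem_filter]
    refine ⟨hiI, ?_⟩
    obtain ⟨k, hk, hfk⟩ := hf1 _ hiI
    have hfk' : f (r, c) = α (b⁻¹ * (t * k * r)) := hfk
    have hτ : t * (k * (α (b * p) * r⁻¹)⁻¹) ∈ T := htK _ (K.mul_mem hk (K.inv_mem hrK))
    refine ⟨_, hτ, ?_⟩
    set τ := t * (k * (α (b * p) * r⁻¹)⁻¹) with hτd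
    have hτi : τ⁻¹ = τ := inv_eq_of_mul_eq_one_right (hTi _ hτ)
    have h2 : ((f (r, c))⁻¹ * p)⁻¹ * ((b * f (r, c))⁻¹ * τ * (b * f (r, c))) =
        ((f (r, c))⁻¹ * (b⁻¹ * τ * (b * p)))⁻¹ := key _ _ hτi
    have h3 : b⁻¹ * τ * (b * p) = (b⁻¹ * (t * k * r)) * β (b * p) := by
      have h4 : b * p = α (b * p) * β (b * p) := d.he _
      calc b⁻¹ * τ * (b * p) = b⁻¹ * τ * (α (b * p) * β (b * p)) := by rw [← h4]
        _ = _ := by rw [hτd]; group
    have h5 : (f (r, c))⁻¹ * (b⁻¹ * τ * (b * p)) = β (b⁻¹ * (t * k * r)) * β (b * p) := by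
      rw [h3, hfk']
      have h6 := d.he (b⁻¹ * (t * k * r))
      calc (α (b⁻¹ * (t * k * r)))⁻¹ * ((b⁻¹ * (t * k * r)) * β (b * p)) =
          (α (b⁻¹ * (t * k * r)))⁻¹ * ((α (b⁻¹ * (t * k * r)) * β (b⁻¹ * (t * k * r))) *
            β (b * p)) := by rw [← h6]
        _ = _ := by group
    have h7 : (f (r, c))⁻¹ * (b⁻¹ * τ * (b * p)) ∈ B := by
      rw [h5]
      exact B.mul_mem (d.hb _) (d.hb _)
    show ((f (r, c))⁻¹ * p)⁻¹ * ((b * f (r, c))⁻¹ * τ * (b * f (r, c))) ∈ B
    rw [h2]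
    exact B.inv_mem h7

end H36.CH
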