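import Pool.Agent.H36.CH2.TypeD

/-! The classes of factorised groups covered by the counting lemma. -/

namespace H36.CH

open Subgroup Pointwise

/-- Outer elements invert `m`-th powers of elements of `A0`. -/
def InvPow {G : Type*} [Group G] (A A0 : Subgroup G) : Prop :=
  ∃ m : ℕ, 0 < m ∧ ∀ a ∈ A, a ∉ A0 → ∀ x ∈ A0, a * x ^ m * a⁻¹ = (x ^ m)⁻¹

/-- Outer elements have orders not divisible by four. -/
def OutOdd {G : Type*} [Group G] (A A0 : Subgroup G) : Prop :=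
  ∀ a ∈ A, a ∉ A0 → ∃ n : ℕ, Odd n ∧ (a * a) ^ n = 1

section

variable {G : Type*} [Group G] {A A0 P B B0 Q : Subgroup G}

theorem InvPow.sub (h : InvPow A A0) {A' L : Subgroup G} (hA : A' ≤ A) :
    InvPow (A'.subgroupOf L) ((A0 ⊓ A').subgroupOf L) := by
  obtain ⟨m, hm, h1⟩ := h
  refine ⟨m, hm, ?_⟩
  rintro ⟨a, haL⟩ ha ha0 ⟨x, hxL⟩ hx
  apply Subtype.ext
  exact h1 a (hA ha) (fun h2 => ha0 ⟨h2, ha⟩) x hx.1

theorem InvPow.map (h : InvPow A A0) {G' : Type*} [Group G'] (f : G →* G') :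
    InvPow (A.map f) (A0.map f) := by
  obtain ⟨m, hm, h1⟩ := h
  refine ⟨m, hm, ?_⟩
  rintro _ ⟨a, ha, rfl⟩ ha0 _ ⟨x, hx, rfl⟩
  have h2 := h1 a ha (fun h2 => ha0 ⟨a, h2, rfl⟩) x hx
  have h3 := congrArg f h2
  simpa only [map_mul, map_inv, map_pow] using h3

theorem OutOdd.sub (h : OutOdd A A0) {A' L : Subgroup G} (hA : A' ≤ A) :
    OutOdd (A'.subgroupOf L) ((A0 ⊓ A').subgroupOf L) := by
  rintro ⟨a, haL⟩ ha ha0
  obtain ⟨n, hn, h1⟩ := h a (hA ha) (fun h2 => ha0 ⟨h2, ha⟩)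
  exact ⟨n, hn, Subtype.ext h1⟩

theorem OutOdd.map (h : OutOdd A A0) {G' : Type*} [Group G'] (f : G →* G') :
    OutOdd (A.map f) (A0.map f) := by
  rintro _ ⟨a, ha, rfl⟩ ha0
  obtain ⟨n, hn, h1⟩ := h a ha (fun h2 => ha0 ⟨a, h2, rfl⟩)
  refine ⟨n, hn, ?_⟩
  have h3 := congrArg f h1
  simpa only [map_mul, map_one, map_pow] using h3

theorem cls_dOdd : Cls (fun _ _ A A0 _ _ => InvPow A A0 ∧ OutOdd A A0) where
  sub := fun _ _ _ _ _ _ _ _ _ hC hA _ _ _ => ⟨hC.1.sub hA, hC.2.sub hA⟩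
  map := fun _ _ _ _ _ _ _ _ f hC => ⟨hC.1.map f, hC.2.map f⟩

theorem cls_dd : Cls (fun _ _ A A0 B B0 => InvPow A A0 ∧ InvPow B B0) where
  sub := fun _ _ _ _ _ _ _ _ _ hC hA hB _ _ => ⟨hC.1.sub hA, hC.2.sub hB⟩
  map := fun _ _ _ _ _ _ _ _ f hC => ⟨hC.1.map f, hC.2.map f⟩

/-- Outer elements invert the divisible part. -/
theorem InvPow.inv (h : InvPow A A0) (hs : Side A A0 P) {t : G} (ht : t ∈ A) (ht0 : t ∉ A0) :
    ∀ x ∈ P, t * x * t⁻¹ = x⁻¹ := by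
  obtain ⟨m, hm, h1⟩ := h
  intro x hx
  obtain ⟨y, hy, rfl⟩ := hs.dp.dc.div x hx m hm
  exact h1 t ht ht0 y (hs.le_A0 hy)

/-- A nontrivial `2`-element of `A0` has an involution among its powers. -/
theorem exists_inv_of_pow (A0 : Subgroup G) : ∀ (k : ℕ) (u : G), u ∈ A0 → u ≠ 1 →
    u ^ (2 ^ k) = 1 → ∃ x ∈ A0, x ≠ 1 ∧ x * x = 1 := by
  intro k
  induction k with
  | zero =>
    intro u _ hu1 hu
    rw [pow_zero, pow_one] at hu
    exact absurd hu hu1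
  | succ k ih =>
    intro u hu hu1 huk
    by_cases h1 : u * u = 1
    · exact ⟨u, hu, hu1, h1⟩
    · refine ih (u * u) (A0.mul_mem hu hu) h1 ?_
      rw [← pow_two, ← pow_mul, mul_comm, ← pow_succ]
      exact huk

/-- Either there is an involution outside of `A0` or there is one in `A0`. -/
theorem Side.exists_involution (h : Side A A0 P) {t : G} (ht : t ∈ A) (ht0 : t ∉ A0) :
    (∃ s ∈ A, s ∉ A0 ∧ s * s = 1) ∨ ∃ x ∈ A0, x ≠ 1 ∧ x * x = 1 := by
  obtain ⟨n, hn, hn1⟩ := h.dp.torsion ht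
  obtain ⟨k, r, hr, hnr⟩ := Nat.exists_eq_two_pow_mul_odd hn.ne'
  -- odd powers stay outside
  obtain ⟨q, hq⟩ := hr
  have hsq := (h.sq ht ht0).1
  have hs0 : t ^ r ∉ A0 := by
    intro h1
    apply ht0
    have h2 : t = t ^ r * ((t * t) ^ q)⁻¹ := by
      rw [hq, ← pow_two, ← pow_mul, pow_succ', mul_inv_cancel_right]
    rw [h2]
    exact A0.mul_mem h1 (A0.inv_mem (A0.pow_mem hsq q))
  have hs : t ^ r ∈ A := A.pow_mem ht r
  by_cases h1 : t ^ r * t ^ r = 1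
  · exact Or.inl ⟨t ^ r, hs, hs0, h1⟩
  · right
    refine exists_inv_of_pow A0 k (t ^ r * t ^ r) (h.sq hs hs0).1 h1 ?_
    have h2 : (t ^ r * t ^ r) ^ 2 ^ k = (t ^ n) * (t ^ n) := by
      rw [← pow_add, ← pow_mul, ← pow_add, hnr]
      congr 1
      ring
    rw [h2, hn1, one_mul]

/-- An outer element with a square of odd order has an outer involution among its powers. -/
theorem OutOdd.exists_involution (h : OutOdd A A0) (hs : Side A A0 P) {t : G} (ht : t ∈ A)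
    (ht0 : t ∉ A0) : ∃ s ∈ A, s ∉ A0 ∧ s * s = 1 := by
  obtain ⟨r, hr, hr1⟩ := h t ht ht0
  obtain ⟨q, hq⟩ := hr
  refine ⟨t ^ r, A.pow_mem ht r, ?_, ?_⟩
  · intro h1
    apply ht0
    have h2 : t = t ^ r * ((t * t) ^ q)⁻¹ := by
      rw [hq, ← pow_two, ← pow_mul, pow_succ', mul_inv_cancel_right]
    rw [h2]
    exact A0.mul_mem h1 (A0.inv_mem (A0.pow_mem (hs.sq ht ht0).1 q))
  · rw [← pow_add, ← two_mul, pow_mul, pow_two]
    exact hr1

end

/-- If the outer elements of `A` invert powers of the elements of `A0` and have orders not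
divisible by four then the divisible parts commute. -/
theorem comm_of_dOdd (G : Type) [Group G] (A A0 P B B0 Q : Subgroup G)
    (h : Hyp A A0 P B B0 Q) (h1 : InvPow A A0) (h2 : OutOdd A A0) :
    ∀ x ∈ P, ∀ y ∈ Q, x * y = y * x := by
  refine reduction cls_dOdd ?_ G A A0 P B B0 Q h ⟨h1, h2⟩
  intro G _ A A0 P B B0 Q h hC
  by_cases hA : A ≤ A0
  · exact core_abelian h hA
  · obtain ⟨t, ht, ht0⟩ := SetLike.not_le_iff_exists.mp hA
    obtain ⟨s, hs, hs0, hss⟩ := hC.2.exists_involution h.hyp.sa ht ht0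
    exact h.no_inv_involution hs hs0 hss (hC.1.inv h.hyp.sa hs hs0)

/-- The missing statement about involutions in `A0` and `B0`. -/
def NotBothEven : Prop := ∀ (G : Type) [Group G] (A A0 P B B0 Q : Subgroup G),
  Cfg A A0 P B B0 Q → ∀ x ∈ A0, x ≠ 1 → x * x = 1 → ∀ y ∈ B0, y ≠ 1 → y * y = 1 → False

/-- If the outer elements of both factors invert powers then the divisible parts commute. -/
theorem comm_of_dd (hT : NotBothEven) (G : Type) [Group G] (A A0 P B B0 Q : Subgroup G)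
    (h : Hyp A A0 P B B0 Q) (h1 : InvPow A A0) (h2 : InvPow B B0) :
    ∀ x ∈ P, ∀ y ∈ Q, x * y = y * x := by
  refine reduction cls_dd ?_ G A A0 P B B0 Q h ⟨h1, h2⟩
  intro G _ A A0 P B B0 Q h hC
  by_cases hA : A ≤ A0
  · exact core_abelian h hA
  by_cases hB : B ≤ B0
  · exact core_abelian h.symm hB
  obtain ⟨t, ht, ht0⟩ := SetLike.not_le_iff_exists.mp hA
  obtain ⟨s, hs, hs0⟩ := SetLike.not_le_iff_exists.mp hB
  rcases h.hyp.sa.exists_involution ht ht0 with ⟨t', ht', ht0', htt⟩ | ⟨x, hx, hx1, hxx⟩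
  · exact h.no_inv_involution ht' ht0' htt (hC.1.inv h.hyp.sa ht' ht0')
  rcases h.hyp.sb.exists_involution hs hs0 with ⟨s', hs', hs0', hss⟩ | ⟨y, hy, hy1, hyy⟩
  · exact h.symm.no_inv_involution hs' hs0' hss (hC.2.inv h.hyp.sb hs' hs0')
  exact hT G A A0 P B B0 Q h x hx hx1 hxx y hy hy1 hyy

end H36.CH
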