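import Pool.Agent.H36.CH.Final
import Pool.Agent.H36.CH2.Cls
import Pool.Agent.H84.FK.FAll
import Pool.Agent.H25.AB.NoInv
import Pool.Agent.H25.AB.Fin

/-! The finite case and the combined theorem. -/

namespace H36.CH

open Subgroup Pointwise

/-- The finite theorem is proved on the fk and fk2 boards. -/
theorem finiteCase : FiniteCase := by
  intro F _ _ A B hfac hA hB
  obtain ⟨K, hK, hKc, hK0, hK2⟩ := hA
  obtain ⟨L, hL, hLc, hL0, hL2⟩ := hB
  have hart : ∀ X : Subgroup F, ∃ H : Subgroup F, H ≤ X ∧ (∀ x ∈ H, ∀ y ∈ H, x * y = y * x) ∧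
      (H.subgroupOf X).index ≠ 0 ∧ WellFoundedLT (Subgroup ↥H) := by
    intro X
    refine ⟨⊥, bot_le, ?_, ?_, ?_⟩
    · intro x hx y hy
      rw [Subgroup.mem_bot] at hx hy
      rw [hx, hy]
    · exact Subgroup.index_ne_zero_of_finite
    · infer_instance
  obtain ⟨P, hP⟩ := exists_side A (hart A) K hK hKc hK0 hK2
  obtain ⟨Q, hQ⟩ := exists_side B (hart B) L hL hLc hL0 hL2
  exact Pool.Agent.H84.FK.t_ff F A K B L hfac hKc hLc ⟨hK, hP.idx⟩ ⟨hL, hQ.idx⟩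

/-- Each element of `A` centralises or inverts `m`-th powers of elements of `K`. -/
theorem pm_of_pow {G : Type} [Group G] {A K P : Subgroup G} (h : Side A K P) (m : ℕ)
    (hm : 0 < m) (h1 : ∀ a ∈ A, (∀ x ∈ K, a * x ^ m * a⁻¹ = x ^ m) ∨
      ∀ x ∈ K, a * x ^ m * a⁻¹ = (x ^ m)⁻¹) : H25.AB.PM A := by
  refine ⟨P, h.dp, ?_⟩
  intro a ha
  rcases h1 a ha with h2 | h2
  · left
    intro x hx
    obtain ⟨y, hy, rfl⟩ := h.dp.dc.div x hx m hm
    exact h2 y (h.le_A0 hy)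
  · right
    intro x hx
    obtain ⟨y, hy, rfl⟩ := h.dp.dc.div x hx m hm
    exact h2 y (h.le_A0 hy)

/-- `m`-th powers in `K` are `2`-elements. -/
theorem two_of_pow {G : Type} [Group G] {A K P : Subgroup G} (h : Side A K P) (m : ℕ)
    (hm : 0 < m) (h1 : ∀ x ∈ K, ∃ k : ℕ, (x ^ m) ^ 2 ^ k = 1) : H25.AB.TwoDP A := by
  refine ⟨P, h.dp, ?_⟩
  intro x hx
  obtain ⟨y, hy, rfl⟩ := h.dp.dc.div x hx m hm
  exact h1 y (h.le_A0 hy)

end H36.CH
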