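import Pool.Agent.H36.CH.Dih3
import Pool.Agent.H36.CH.Dih4

/-! Further general facts in a minimal configuration. -/

namespace H36.CH

open Subgroup Pointwise

/-- The factors of a minimal configuration have trivial intersection. -/
theorem Cfg.exact {G : Type} [Group G] {A A0 P B B0 Q : Subgroup G} (h : Cfg A A0 P B B0 Q) :
    ∀ x ∈ A, x ∈ B → x = 1 := by
  have hA0 : A0 ≤ A := h.hyp.sa.le0
  have hB0 : B0 ≤ B := h.hyp.sb.le0
  have sideA : Side A0 A0 P := ⟨⟨h.hyp.sa.dp.dc, h.hyp.sa.le_A0, fun h0 => h.hyp.sa.dp.fin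
    (Subgroup.relIndex_eq_zero_of_le_right hA0 h0)⟩, le_rfl, h.hyp.sa.comm0,
    fun x hx y _ hx0 => absurd hx hx0⟩
  have sideB : Side B0 B0 Q := ⟨⟨h.hyp.sb.dp.dc, h.hyp.sb.le_A0, fun h0 => h.hyp.sb.dp.fin
    (Subgroup.relIndex_eq_zero_of_le_right hB0 h0)⟩, le_rfl, h.hyp.sb.comm0,
    fun x hx y _ hx0 => absurd hx hx0⟩
  intro x hx hxB
  by_contra hx1
  apply h.ne
  by_cases hx0 : x ∈ A0
  · have hxB0 : x ∉ B0 := fun h1 => hx1 (h.inf0 hx0 h1)
    have hfac : ∀ g : G, ∃ a ∈ A, ∃ b ∈ B0, g = a * b := by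
      intro g
      obtain ⟨a, ha, b, hb, rfl⟩ := h.hyp.fac g
      by_cases hb0 : b ∈ B0
      · exact ⟨a, ha, b, hb0, rfl⟩
      · exact ⟨a * x⁻¹, A.mul_mem ha (A.inv_mem hx), x * b, h.hyp.sb.idx x hxB b hb hxB0 hb0,
          by group⟩
    intro u hu v hv
    have hH : Hyp A A0 P B0 B0 Q := ⟨hfac, h.hyp.sa, sideB⟩
    exact (comm_of_abelian G B0 B0 Q A A0 P hH.symm le_rfl v hv u hu).symm
  · have hfac : ∀ g : G, ∃ a ∈ A0, ∃ b ∈ B, g = a * b := by
      intro g
      obtain ⟨a, ha, b, hb, rfl⟩ := h.hyp.fac g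
      by_cases ha0 : a ∈ A0
      · exact ⟨a, ha0, b, hb, rfl⟩
      · exact ⟨a * x, h.hyp.sa.idx a ha x hx ha0 hx0, x⁻¹ * b, B.mul_mem (B.inv_mem hxB) hb,
          by group⟩
    exact comm_of_abelian G A0 A0 P B B0 Q ⟨hfac, sideA, h.hyp.sb⟩ le_rfl

/-- An element of `B0` normalising `P` has a finite centraliser in `A`. -/
theorem Cfg.fin_cent_of_mem_Nz {G : Type} [Group G] {A A0 P B B0 Q : Subgroup G}
    (h : Cfg A A0 P B B0 Q) {y : G} (hy : y ∈ B0) (hyP : y ∈ Nz P) (hy1 : y ≠ 1) :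
    {x | x ∈ A ∧ x * y = y * x}.Finite := by
  set L : Subgroup G := Subgroup.centralizer {y} with hL
  have hmemL : ∀ g, g ∈ L ↔ g * y = y * g := fun g => by
    rw [hL, Subgroup.mem_centralizer_singleton_iff]
  have hB0L : B0 ≤ L := by
    intro x hx
    rw [hmemL]
    exact h.hyp.sb.comm0 x hx y hy
  have hfacBA := h.hyp.symm.fac
  by_cases hex : ∃ b1 ∈ B, b1 ∉ B0 ∧ ∃ a1 ∈ A, b1 * a1 ∈ L
  · exfalso
    obtain ⟨b1, hb1, hb10, a1, ha1, hl1⟩ := hex
    -- every element is in `L A`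
    have hLA : ∀ g : G, ∃ l ∈ L, ∃ a ∈ A, g = l * a := by
      intro g
      obtain ⟨b, hb, a, ha, rfl⟩ := hfacBA g
      by_cases hb0 : b ∈ B0
      · exact ⟨b, hB0L hb0, a, ha, rfl⟩
      · have hbi : b1⁻¹ ∉ B0 := fun h2 => hb10 (by simpa using B0.inv_mem h2)
        refine ⟨b * b1⁻¹ * (b1 * a1), L.mul_mem (hB0L (h.hyp.sb.idx b hb _ (B.inv_mem hb1) hb0
          hbi)) hl1, a1⁻¹ * a, A.mul_mem (A.inv_mem ha1) ha, by group⟩
    have hconj : ∀ g : G, g⁻¹ * y * g ∈ Nz P := by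
      intro g
      obtain ⟨l, hl, a, ha, rfl⟩ := hLA g
      have haN : a ∈ Nz P := h.hyp.sa.dp.le_Nz ha
      have h1 : (l * a)⁻¹ * y * (l * a) = a⁻¹ * y * a := by
        have h2 : l * y = y * l := (hmemL l).mp hl
        calc (l * a)⁻¹ * y * (l * a) = a⁻¹ * l⁻¹ * (y * l) * a := by group
          _ = a⁻¹ * l⁻¹ * (l * y) * a := by rw [h2]
          _ = _ := by group
      rw [h1]
      exact (Nz P).mul_mem ((Nz P).mul_mem ((Nz P).inv_mem haN) hyP) haN
    set W := Subgroup.normalClosure {y} with hW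
    have hWn : W.Normal := Subgroup.normalClosure_normal
    have hyW : y ∈ W := Subgroup.subset_normalClosure rfl
    have hW1 : W ≠ ⊥ := by
      intro h1
      rw [h1, Subgroup.mem_bot] at hyW
      exact hy1 hyW
    have hWle : W ≤ Nz P := by
      rw [hW, Subgroup.normalClosure, Subgroup.closure_le]
      intro x hx
      rw [Group.mem_conjugatesOfSet_iff] at hx
      obtain ⟨z, hz, hzx⟩ := hx
      rw [Set.mem_singleton_iff] at hz
      subst hz
      obtain ⟨c, hc⟩ := isConj_iff.mp hzx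
      rw [← hc]
      have := hconj c⁻¹
      rwa [inv_inv] at this
    have htop := h.sup_normal_top W hWn hW1
    apply h.Nz_ne_top
    rw [eq_top_iff, ← htop]
    exact sup_le h.hyp.sa.dp.le_Nz hWle
  · push Not at hex
    obtain ⟨D, hD⟩ : ∃ D : Subgroup G, DP (L ⊓ P) D := by
      refine exists_DP ?_ (art_mono inf_le_right h.hyp.sa.dp.dc.art)
      intro x hx z hz
      exact h.hyp.sa.dp.dc.comm x hx.2 z hz.2
    have hD2 : DP (L ⊓ A) D := by
      refine ⟨hD.dc, hD.le.trans (inf_le_inf_left L h.hyp.sa.dp.le), ?_⟩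
      refine Subgroup.relIndex_ne_zero_trans hD.fin ?_
      rw [inf_comm L P, inf_comm L A]
      exact Subgroup.relIndex_inter_ne_zero h.hyp.sa.dp.fin L
    have hDP : D ≤ P := hD.le.trans inf_le_right
    have hDL : D ≤ L := hD.le.trans inf_le_left
    have hfacL : ∀ g ∈ L, ∃ b ∈ B0, ∃ a ∈ L ⊓ A, g = b * a := by
      intro g hg
      obtain ⟨b, hb, a, ha, rfl⟩ := hfacBA g
      have hb0 : b ∈ B0 := by
        by_contra hb0
        exact hex b hb hb0 a ha hg
      refine ⟨b, hb0, a, ⟨?_, ha⟩, rfl⟩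
      have h1 := L.mul_mem (L.inv_mem (hB0L hb0)) hg
      rwa [inv_mul_cancel_left] at h1
    have sideA : Side (L ⊓ A) (A0 ⊓ (L ⊓ A)) D := h.hyp.sa.restrict inf_le_right hD2
    have sideB : Side B0 B0 Q := ⟨⟨h.hyp.sb.dp.dc, h.hyp.sb.le_A0, fun h0 => h.hyp.sb.dp.fin
      (Subgroup.relIndex_eq_zero_of_le_right h.hyp.sb.le0 h0)⟩, le_rfl, h.hyp.sb.comm0,
      fun x hx y _ hx0 => absurd hx hx0⟩
    have hH := Hyp.sub hB0L (inf_le_left : L ⊓ A ≤ L) hfacL sideB sideA
    have hcomm := comm_of_abelian ↥L _ _ _ _ _ _ hH le_rfl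
    have hDbot : D = ⊥ := by
      rw [eq_bot_iff]
      intro x hx
      rw [Subgroup.mem_bot]
      refine h.cent x (fun z hz => h.hyp.sa.dp.dc.comm x (hDP hx) z hz) ?_
      intro z hz
      have h1 := hcomm ⟨z, hB0L (h.hyp.sb.le_A0 hz)⟩ hz ⟨x, hDL hx⟩ hx
      exact (congrArg Subtype.val h1).symm
    have hfin : ((L ⊓ A : Subgroup G) : Set G).Finite := by
      have h1 := hD2.fin
      rw [hDbot, Subgroup.relIndex_bot_left] at h1
      exact Nat.finite_of_card_ne_zero h1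
    refine hfin.subset ?_
    rintro x ⟨hx, hx2⟩
    exact ⟨(hmemL x).mpr hx2, hx⟩

section

variable {G : Type*} [Group G] {A A0 P B B0 Q : Subgroup G}

/-- If an element of `B0` has a finite centraliser in `A` then `Q` has finite index in its
centraliser. -/
theorem Cfg.cent_relIndex (h : Cfg A A0 P B B0 Q) {y : G} (hy : y ∈ B0)
    (hfin : {x | x ∈ A ∧ x * y = y * x}.Finite) :
    Q.relIndex (Subgroup.centralizer {y}) ≠ 0 := by
  set L : Subgroup G := Subgroup.centralizer {y} with hL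
  have hmemL : ∀ g, g ∈ L ↔ g * y = y * g := fun g => by
    rw [hL, Subgroup.mem_centralizer_singleton_iff]
  have hB0L : B0 ≤ L := by
    intro x hx
    rw [hmemL]
    exact h.hyp.sb.comm0 x hx y hy
  have hLA : ((L ⊓ A : Subgroup G) : Set G).Finite := by
    refine hfin.subset ?_
    rintro x ⟨hx1, hx2⟩
    exact ⟨hx2, (hmemL x).mp hx1⟩
  have hB0i : B0.relIndex L ≠ 0 := by
    by_cases hex : ∃ a0 ∈ A, ∃ b0 ∈ B, b0 ∉ B0 ∧ a0 * b0 ∈ L
    · obtain ⟨a0, ha0, b0, hb0B, hb00, hg0⟩ := hex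
      refine relIndex_of_reps (((L ⊓ A : Subgroup G) : Set G) ∪
        (fun c => c * (a0 * b0)) '' ((L ⊓ A : Subgroup G) : Set G))
        (hLA.union (hLA.image _)) ?_
      intro g hg
      obtain ⟨a', ha', b', hb', rfl⟩ := h.hyp.fac g
      by_cases hb'0 : b' ∈ B0
      · refine ⟨a', Or.inl ⟨?_, ha'⟩, ?_⟩
        · have := L.mul_mem hg (L.inv_mem (hB0L hb'0))
          rwa [mul_inv_cancel_right] at this
        · rw [inv_mul_cancel_left]
          exact hb'0
      · have hb'i : b'⁻¹ ∉ B0 := fun h5 => hb'0 (by simpa using B0.inv_mem h5)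
        have hb0i : b0⁻¹ ∉ B0 := fun h5 => hb00 (by simpa using B0.inv_mem h5)
        have h5 : b'⁻¹ * b0 ∈ B0 := h.hyp.sb.idx _ (B.inv_mem hb') _ hb0B hb'i hb00
        have h6 : a' * b0 ∈ L := by
          have := L.mul_mem hg (hB0L h5)
          have h7 : a' * b' * (b'⁻¹ * b0) = a' * b0 := by group
          rwa [h7] at this
        refine ⟨(a' * a0⁻¹) * (a0 * b0), Or.inr ⟨a' * a0⁻¹, ⟨?_, A.mul_mem ha' (A.inv_mem ha0)⟩,
          rfl⟩, ?_⟩
        · have := L.mul_mem h6 (L.inv_mem hg0)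
          have h7 : a' * b0 * (a0 * b0)⁻¹ = a' * a0⁻¹ := by group
          rwa [h7] at this
        · have h7 : ((a' * a0⁻¹) * (a0 * b0))⁻¹ * (a' * b') = b0⁻¹ * b' := by group
          rw [h7]
          exact h.hyp.sb.idx _ (B.inv_mem hb0B) _ hb' hb0i hb'0
    · push Not at hex
      refine relIndex_of_reps ((L ⊓ A : Subgroup G) : Set G) hLA ?_
      intro g hg
      obtain ⟨a', ha', b', hb', rfl⟩ := h.hyp.fac g
      have hb'0 : b' ∈ B0 := by
        by_contra hcon
        exact hex a' ha' b' hb' hcon hg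
      refine ⟨a', ⟨?_, ha'⟩, ?_⟩
      · have := L.mul_mem hg (L.inv_mem (hB0L hb'0))
        rwa [mul_inv_cancel_right] at this
      · rw [inv_mul_cancel_left]
        exact hb'0
  have hQB0 : Q.relIndex B0 ≠ 0 := fun h0 =>
    h.hyp.sb.dp.fin (Subgroup.relIndex_eq_zero_of_le_right h.hyp.sb.le0 h0)
  exact Subgroup.relIndex_ne_zero_trans hQB0 hB0i

/-- Fusion in `B0` of elements with a finite centraliser in `A`. -/
theorem Cfg.mem_Nz_of_cent (h : Cfg A A0 P B B0 Q) {y g : G} (hy : y ∈ B0)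
    (hfin : {x | x ∈ A ∧ x * y = y * x}.Finite) (hg : g * y * g⁻¹ ∈ B0) : g ∈ Nz Q := by
  have hrel := h.cent_relIndex hy hfin
  have h1 : g⁻¹ ∈ Nz Q := by
    refine h.hyp.sb.dp.dc.mem_Nz _ ?_
    refine h.hyp.sb.dp.dc.conj_le hrel _ ?_
    intro q hq
    rw [Subgroup.mem_centralizer_singleton_iff, inv_inv]
    have h2 := h.hyp.sb.comm0 q (h.hyp.sb.le_A0 hq) _ hg
    calc g⁻¹ * q * g * y = g⁻¹ * (q * (g * y * g⁻¹)) * g := by group
      _ = g⁻¹ * ((g * y * g⁻¹) * q) * g := by rw [h2]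
      _ = _ := by group
  have h2 := (Nz Q).inv_mem h1
  rwa [inv_inv] at h2

/-- Finite subsets of `A` lie in finite subgroups of `A`. -/
theorem Side.locfin (h : Side A A0 P) (S : Finset G) (hS : ∀ x ∈ S, x ∈ A) :
    ∃ L : Finset G, S ⊆ L ∧ (∀ x ∈ L, x ∈ A) ∧ (∀ x ∈ L, ∀ y ∈ L, x * y ∈ L) ∧
      ∀ x ∈ L, x⁻¹ ∈ L := by
  classical
  have htor : ∀ x ∈ A0, ∃ n : ℕ, 0 < n ∧ x ^ n = 1 := fun x hx => h.dp.torsion (h.le0 hx)
  by_cases hA : ∃ t ∈ A, t ∉ A0
  · obtain ⟨t, ht, ht0⟩ := hA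
    have hti : t⁻¹ ∉ A0 := fun h2 => ht0 (by simpa using A0.inv_mem h2)
    obtain ⟨htt, httc⟩ := h.sq ht ht0
    set E : Finset G := S.image (fun s => if s ∈ A0 then s else s * t⁻¹) ∪ {t * t} with hE
    have hE0 : ∀ x ∈ E, x ∈ A0 := by
      intro x hx
      rw [hE, Finset.mem_union, Finset.mem_image, Finset.mem_singleton] at hx
      rcases hx with ⟨s, hs, rfl⟩ | rfl
      · by_cases hs0 : s ∈ A0
        · rw [if_pos hs0]; exact hs0
        · rw [if_neg hs0]
          exact h.idx s (hS s hs) _ (A.inv_mem ht) hs0 hti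
      · exact htt
    set E' : Finset G := E ∪ E.image (fun x => t * x * t⁻¹) with hE'
    have hE'0 : ∀ x ∈ E', x ∈ A0 := by
      intro x hx
      rw [hE', Finset.mem_union, Finset.mem_image] at hx
      rcases hx with hx | ⟨s, hs, rfl⟩
      · exact hE0 x hx
      · exact h.conj0 ht (hE0 s hs)
    have hcl := finite_closure h.comm0 htor E' hE'0
    set K : Subgroup G := Subgroup.closure (E' : Set G) with hK
    have hKA0 : K ≤ A0 := by
      rw [hK, Subgroup.closure_le]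
      intro x hx
      exact hE'0 x hx
    have hKt : ∀ x ∈ K, t * x * t⁻¹ ∈ K := by
      have h1 : K ≤ K.comap (MulAut.conj t).toMonoidHom := by
        conv_lhs => rw [hK]
        rw [Subgroup.closure_le]
        intro x hx
        show t * x * t⁻¹ ∈ K
        rw [Finset.mem_coe, hE', Finset.mem_union, Finset.mem_image] at hx
        rcases hx with hx | ⟨s, hs, rfl⟩
        · refine Subgroup.subset_closure ?_
          rw [Finset.mem_coe, hE', Finset.mem_union]
          exact Or.inr (Finset.mem_image_of_mem _ hx)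
        · have h2 : t * (t * s * t⁻¹) * t⁻¹ = s := by
            have h3 := h.comm0 _ htt s (hE0 s hs)
            calc t * (t * s * t⁻¹) * t⁻¹ = (t * t) * s * (t * t)⁻¹ := by group
              _ = s := by rw [h3, mul_inv_cancel_right]
          rw [h2]
          refine Subgroup.subset_closure ?_
          rw [Finset.mem_coe, hE', Finset.mem_union]
          exact Or.inl hs
      intro x hx
      exact h1 hx
    have hKt' : ∀ x ∈ K, t⁻¹ * x * t ∈ K := by
      intro x hx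
      have h3 := h.comm0 _ htt x (hKA0 hx)
      have h2 : t⁻¹ * x * t = t * x * t⁻¹ := by
        calc t⁻¹ * x * t = t⁻¹ * (x * (t * t)) * t⁻¹ := by group
          _ = t⁻¹ * ((t * t) * x) * t⁻¹ := by rw [h3]
          _ = _ := by group
      rw [h2]
      exact hKt x hx
    have httK : t * t ∈ K := by
      refine Subgroup.subset_closure ?_
      rw [Finset.mem_coe, hE', Finset.mem_union]
      refine Or.inl ?_
      rw [hE, Finset.mem_union]
      exact Or.inr (Finset.mem_singleton_self _)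
    have hKfin : (K : Set G).Finite := Set.toFinite _
    have hSK : ∀ s ∈ S, s ∈ K ∨ s * t⁻¹ ∈ K := by
      intro s hs
      have h1 : (if s ∈ A0 then s else s * t⁻¹) ∈ K := by
        refine Subgroup.subset_closure ?_
        rw [Finset.mem_coe, hE', Finset.mem_union]
        refine Or.inl ?_
        rw [hE, Finset.mem_union]
        exact Or.inl (Finset.mem_image_of_mem _ hs)
      by_cases hs0 : s ∈ A0
      · rw [if_pos hs0] at h1; exact Or.inl h1
      · rw [if_neg hs0] at h1; exact Or.inr h1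
    have hLfin : {x | x ∈ K ∨ x * t⁻¹ ∈ K}.Finite := by
      refine (hKfin.union (hKfin.image (fun k => k * t))).subset ?_
      rintro x (hx | hx)
      · exact Or.inl hx
      · exact Or.inr ⟨x * t⁻¹, hx, by show x * t⁻¹ * t = x; group⟩
    refine ⟨hLfin.toFinset, ?_, ?_, ?_, ?_⟩
    · intro s hs
      rw [Set.Finite.mem_toFinset]
      exact hSK s hs
    · intro x hx
      rw [Set.Finite.mem_toFinset] at hx
      rcases hx with hx | hx
      · exact h.le0 (hKA0 hx)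
      · have h1 := A.mul_mem (h.le0 (hKA0 hx)) ht
        rwa [inv_mul_cancel_right] at h1
    · intro x hx y hy
      rw [Set.Finite.mem_toFinset] at hx hy ⊢
      rcases hx with hx | hx <;> rcases hy with hy | hy
      · exact Or.inl (K.mul_mem hx hy)
      · refine Or.inr ?_
        rw [mul_assoc]
        exact K.mul_mem hx hy
      · refine Or.inr ?_
        have h1 : x * y * t⁻¹ = (x * t⁻¹) * (t * y * t⁻¹) := by group
        rw [h1]
        exact K.mul_mem hx (hKt y hy)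
      · refine Or.inl ?_
        have h1 : x * y = (x * t⁻¹) * (t * (y * t⁻¹) * t⁻¹) * (t * t) := by group
        rw [h1]
        exact K.mul_mem (K.mul_mem hx (hKt _ hy)) httK
    · intro x hx
      rw [Set.Finite.mem_toFinset] at hx ⊢
      rcases hx with hx | hx
      · exact Or.inl (K.inv_mem hx)
      · refine Or.inr ?_
        have h1 : x⁻¹ * t⁻¹ = (t⁻¹ * (x * t⁻¹)⁻¹ * t) * (t * t)⁻¹ := by group
        rw [h1]
        exact K.mul_mem (hKt' _ (K.inv_mem hx)) (K.inv_mem httK)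
  · push Not at hA
    have hS0 : ∀ x ∈ S, x ∈ A0 := fun x hx => hA x (hS x hx)
    have hcl := finite_closure h.comm0 htor S hS0
    have hKfin : ((Subgroup.closure (S : Set G) : Subgroup G) : Set G).Finite := Set.toFinite _
    have hKA0 : Subgroup.closure (S : Set G) ≤ A0 := by
      rw [Subgroup.closure_le]
      intro x hx
      exact hS0 x hx
    refine ⟨hKfin.toFinset, ?_, ?_, ?_, ?_⟩
    · intro s hs
      rw [Set.Finite.mem_toFinset]
      exact Subgroup.subset_closure hs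
    · intro x hx
      rw [Set.Finite.mem_toFinset] at hx
      exact h.le0 (hKA0 hx)
    · intro x hx y hy
      rw [Set.Finite.mem_toFinset] at hx hy ⊢
      exact Subgroup.mul_mem _ hx hy
    · intro x hx
      rw [Set.Finite.mem_toFinset] at hx ⊢
      exact Subgroup.inv_mem _ hx

/-- Intersections of conjugates outside of the normaliser of `P`. -/
theorem conj_fin {P X Y : Subgroup G} (hX : P.relIndex X ≠ 0) (hY : P.relIndex Y ≠ 0) {g : G}
    (hfus : ∀ x ∈ P, g * x * g⁻¹ ∈ P → x = 1) : {x | x ∈ X ∧ g * x * g⁻¹ ∈ Y}.Finite := by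
  set f := (MulAut.conj g).toMonoidHom with hf
  have hfx : ∀ x, f x = g * x * g⁻¹ := fun x => rfl
  set Z : Subgroup G := X ⊓ Y.comap f with hZ
  have h1 : P.relIndex Z ≠ 0 := fun h0 =>
    hX (Subgroup.relIndex_eq_zero_of_le_right inf_le_left h0)
  have h2 : (P.comap f).relIndex Z ≠ 0 := by
    rw [Subgroup.relIndex_comap]
    intro h0
    refine hY (Subgroup.relIndex_eq_zero_of_le_right ?_ h0)
    rintro _ ⟨x, hx, rfl⟩
    exact hx.2
  have h3 := Subgroup.relIndex_inf_ne_zero h1 h2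
  have h4 : P ⊓ P.comap f = ⊥ := by
    rw [eq_bot_iff]
    rintro x ⟨hx1, hx2⟩
    rw [Subgroup.mem_bot]
    exact hfus x hx1 hx2
  rw [h4, Subgroup.relIndex_bot_left] at h3
  have h5 : (Z : Set G).Finite := Nat.finite_of_card_ne_zero h3
  refine h5.subset ?_
  rintro x ⟨hx1, hx2⟩
  exact ⟨hx1, hx2⟩

/-- A group with two subgroups of index at most two with trivial intersection has at most four
elements. -/
theorem four_bound {B B0 : Subgroup G} (_hle : B0 ≤ B)
    (hidx : ∀ x ∈ B, ∀ y ∈ B, x ∉ B0 → y ∉ B0 → x * y ∈ B0) {p : G}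
    (hTI : ∀ g, g ∈ B0 → p⁻¹ * g * p ∈ B0 → g = 1) :
    ∃ E : Finset G, E.card ≤ 4 ∧ ∀ g, g ∈ B → p⁻¹ * g * p ∈ B → g ∈ E := by
  classical
  let S : Bool × Bool → Set G := fun c => {g | g ∈ B ∧ p⁻¹ * g * p ∈ B ∧ (g ∈ B0 ↔ c.1 = true) ∧
    (p⁻¹ * g * p ∈ B0 ↔ c.2 = true)}
  let e : Bool × Bool → G := fun c => if hc : ∃ g, g ∈ S c then hc.choose else 1
  refine ⟨Finset.univ.image e, Finset.card_image_le, ?_⟩
  intro g hg hgp
  have hquot : ∀ x ∈ B, ∀ y ∈ B, (x ∈ B0 ↔ y ∈ B0) → x⁻¹ * y ∈ B0 := by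
    intro x hx y hy hxy
    by_cases hx0 : x ∈ B0
    · exact B0.mul_mem (B0.inv_mem hx0) (hxy.mp hx0)
    · have hxi : x⁻¹ ∉ B0 := fun h2 => hx0 (by simpa using B0.inv_mem h2)
      exact hidx _ (B.inv_mem hx) y hy hxi (fun h2 => hx0 (hxy.mpr h2))
  set c : Bool × Bool := (decide (g ∈ B0), decide (p⁻¹ * g * p ∈ B0)) with hc
  have hgS : g ∈ S c := by
    refine ⟨hg, hgp, ?_, ?_⟩
    · show g ∈ B0 ↔ decide (g ∈ B0) = true
      rw [decide_eq_true_iff]
    · show p⁻¹ * g * p ∈ B0 ↔ decide (p⁻¹ * g * p ∈ B0) = true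
      rw [decide_eq_true_iff]
  have hex : ∃ g, g ∈ S c := ⟨g, hgS⟩
  have hec : e c = hex.choose := dif_pos hex
  have hchoose := hex.choose_spec
  rw [← hec] at hchoose
  obtain ⟨h1, h2, h3, h4⟩ := hchoose
  obtain ⟨g1, g2, g3, g4⟩ := hgS
  rw [Finset.mem_image]
  refine ⟨c, Finset.mem_univ _, ?_⟩
  have h5 : (e c)⁻¹ * g ∈ B0 := hquot _ h1 _ g1 (h3.trans g3.symm)
  have h6 : p⁻¹ * ((e c)⁻¹ * g) * p ∈ B0 := by
    have h7 := hquot _ h2 _ g2 (h4.trans g4.symm)
    have h8 : (p⁻¹ * e c * p)⁻¹ * (p⁻¹ * g * p) = p⁻¹ * ((e c)⁻¹ * g) * p := by group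
    rwa [h8] at h7
  exact inv_mul_eq_one.mp (hTI _ h5 h6)

end

end H36.CH
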