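import Pool.Agent.H36.CH2.Base
import Pool.Agent.H36.CH2.Count

/-! No minimal configuration has a factor whose divisible part is inverted by an involution. -/

namespace H36.CH

open Subgroup Pointwise

/-- If the divisible part of `A` is inverted then nontrivial elements of `B0` have finite
centralisers in `A`. -/
theorem Cfg.inv_fin_cent {G : Type} [Group G] {A A0 P B B0 Q : Subgroup G}
    (h : Cfg A A0 P B B0 Q) {t : G} (ht : t ∈ A) (ht0 : t ∉ A0)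
    (hinv : ∀ x ∈ P, t * x * t⁻¹ = x⁻¹) {y : G} (hy : y ∈ B0) (hy1 : y ≠ 1) :
    {x | x ∈ A ∧ x * y = y * x}.Finite := by
  by_cases hex : ∃ x ∈ P, x ≠ 1 ∧ x * y = y * x
  · obtain ⟨x, hx, hx1, hxy⟩ := hex
    have hxA0 : x ∈ A0 := h.hyp.sa.le_A0 hx
    have h1 : A ≤ Nz (Subgroup.zpowers x) := h.hyp.sa.le_Nz_of_inv ht ht0 hxA0 (hinv x hx)
    have h2 : Nz (Subgroup.zpowers x) ≤ Nz P := by
      refine h.Nz_le ?_ ?_ h1
      · rw [Subgroup.zpowers_le]; exact hxA0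
      · intro h3
        rw [Subgroup.zpowers_eq_bot] at h3
        exact hx1 h3
    refine h.fin_cent_of_mem_Nz hy (h2 ?_) hy1
    intro v hv
    obtain ⟨m, rfl⟩ := Subgroup.mem_zpowers_iff.mp hv
    have hc : y * x ^ m = x ^ m * y :=
      (Commute.zpow_right (show Commute y x from hxy.symm) m).eq
    refine ⟨?_, ?_⟩
    · rw [hc, mul_inv_cancel_right]; exact hv
    · rw [mul_assoc, ← hc, inv_mul_cancel_left]; exact hv
  · push Not at hex
    set L : Subgroup G := Subgroup.centralizer {y} with hL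
    have hmemL : ∀ g, g ∈ L ↔ g * y = y * g := fun g => by
      rw [hL, Subgroup.mem_centralizer_singleton_iff]
    have h1 : P.relIndex (A ⊓ L) ≠ 0 := fun h0 => h.hyp.sa.dp.fin
      (Subgroup.relIndex_eq_zero_of_le_right inf_le_left h0)
    have h2 := finite_of_relIndex h1 (Set.Finite.subset (Set.finite_singleton 1) (by
      rintro x ⟨hx, hx2⟩
      rw [Set.mem_singleton_iff]
      by_contra hx1
      exact hex x hx hx1 ((hmemL x).mp hx2.2)))
    refine h2.subset ?_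
    rintro x ⟨hx, hx2⟩
    exact ⟨hx, (hmemL x).mpr hx2⟩

/-- Fusion in the divisible part when it is inverted. -/
theorem Cfg.inv_fusion {G : Type} [Group G] {A A0 P B B0 Q : Subgroup G}
    (h : Cfg A A0 P B B0 Q) {t : G} (ht : t ∈ A) (ht0 : t ∉ A0)
    (hinv : ∀ x ∈ P, t * x * t⁻¹ = x⁻¹) {g : G} (hg : g ∉ Nz P) :
    ∀ x ∈ P, g * x * g⁻¹ ∈ P → x = 1 := by
  intro x hx hgx
  by_contra hx1
  apply hg
  have hxA0 : x ∈ A0 := h.hyp.sa.le_A0 hx
  refine h.fusion hxA0 (h.hyp.sa.le_A0 hgx) ?_ ?_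
  · intro h1
    apply hx1
    have h2 : x = g⁻¹ * (g * x * g⁻¹) * g := by group
    rw [h2, h1]
    group
  · exact h.hyp.sa.le_Nz_of_inv ht ht0 (h.hyp.sa.le_A0 hgx) (hinv _ hgx)

/-- The elements of an abelian group `A0` inverted by `t`. -/
def Kinv {G : Type*} [Group G] (A0 : Subgroup G) (hc : ∀ x ∈ A0, ∀ y ∈ A0, x * y = y * x)
    (t : G) : Subgroup G where
  carrier := {k | k ∈ A0 ∧ t * k * t⁻¹ = k⁻¹}
  one_mem' := ⟨A0.one_mem, by rw [mul_one, mul_inv_cancel, inv_one]⟩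
  mul_mem' := by
    rintro x y ⟨hx, hx2⟩ ⟨hy, hy2⟩
    refine ⟨A0.mul_mem hx hy, ?_⟩
    calc t * (x * y) * t⁻¹ = (t * x * t⁻¹) * (t * y * t⁻¹) := by group
      _ = x⁻¹ * y⁻¹ := by rw [hx2, hy2]
      _ = (y * x)⁻¹ := by rw [mul_inv_rev]
      _ = (x * y)⁻¹ := by rw [hc x hx y hy]
  inv_mem' := by
    rintro x ⟨hx, hx2⟩
    refine ⟨A0.inv_mem hx, ?_⟩
    calc t * x⁻¹ * t⁻¹ = (t * x * t⁻¹)⁻¹ := by group
      _ = x⁻¹⁻¹ := by rw [hx2]

/-- There is no minimal configuration in which the divisible part of `A` is inverted by an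
involution outside of `A0`. -/
theorem Cfg.no_inv_involution {G : Type} [Group G] {A A0 P B B0 Q : Subgroup G}
    (h : Cfg A A0 P B B0 Q) {t : G} (ht : t ∈ A) (ht0 : t ∉ A0) (htt : t * t = 1)
    (hinv : ∀ x ∈ P, t * x * t⁻¹ = x⁻¹) : False := by
  classical
  have hex := h.exact
  have hti : t⁻¹ = t := inv_eq_of_mul_eq_one_right htt
  -- the components
  choose α hα β hβ hαβ using h.hyp.fac
  have d : Dec A B α β := ⟨hα, hβ, hαβ, hex⟩
  set K := Kinv A0 h.hyp.sa.comm0 t with hK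
  have hPK : P ≤ K := fun x hx => ⟨h.hyp.sa.le_A0 hx, hinv x hx⟩
  have hKA : K ≤ A := fun x hx => h.hyp.sa.le0 hx.1
  have hKinf : (K : Set G).Infinite := h.infP.mono hPK
  -- an element of `B` outside of `Nz P`
  obtain ⟨b, hb, hbP⟩ : ∃ b ∈ B, b ∉ Nz P := by
    by_contra hcon
    push Not at hcon
    apply h.Nz_ne_top
    rw [eq_top_iff]
    intro g _
    obtain ⟨a, ha, b, hb, rfl⟩ := h.hyp.fac g
    exact (Nz P).mul_mem (h.hyp.sa.dp.le_Nz ha) (hcon b hb)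
  obtain ⟨R0, hR0, hR0b⟩ := exists_reps h.hyp.sa.dp.fin
  refine counting d K hKA {τ | ∃ k ∈ K, τ = t * k} ?_ ?_ t ?_ hKinf (R0.image (fun c => c⁻¹))
    ?_ ?_ (fun S hS => h.hyp.sa.locfin S hS) b 4 {a | a ∈ A ∧ a ∈ Nz Q} h.symm.fin_NB ?_ ?_
  · rintro τ ⟨k, hk, rfl⟩
    exact A.mul_mem ht (hKA hk)
  · rintro τ ⟨k, hk, rfl⟩
    have h1 : t * k * t⁻¹ = k⁻¹ := hk.2
    rw [hti] at h1
    calc t * k * (t * k) = t * k * t * k := by group
      _ = 1 := by rw [h1, inv_mul_cancel]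
  · intro k hk
    exact ⟨k, hk, rfl⟩
  · intro r hr
    obtain ⟨c, hc, rfl⟩ := Finset.mem_image.mp hr
    exact A.inv_mem (hR0 c hc)
  · intro a ha
    obtain ⟨c, hc, hca⟩ := hR0b a⁻¹ (A.inv_mem ha)
    refine ⟨c⁻¹, Finset.mem_image_of_mem _ hc, ?_⟩
    rw [inv_inv]
    have h1 := P.inv_mem hca
    have h2 : (c⁻¹ * a⁻¹)⁻¹ = a * c := by group
    rw [h2] at h1
    exact hPK h1
  · -- multiplicities
    intro p hp hpQ
    refine four_bound h.hyp.sb.le0 h.hyp.sb.idx ?_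
    intro g hg hgp
    by_contra hg1
    apply hpQ
    refine ⟨hp, ?_⟩
    have h1 : p⁻¹ ∈ Nz Q := by
      refine h.mem_Nz_of_cent hg (h.inv_fin_cent ht ht0 hinv hg hg1) ?_
      rw [inv_inv]
      exact hgp
    have h2 := (Nz Q).inv_mem h1
    rwa [inv_inv] at h2
  · -- separation
    intro x hx
    have hNz : P.relIndex (Nz P) ≠ 0 := (h.sub_top h.hyp.sa.dp.le_Nz h.Nz_ne_top).1
    have hfin1 : {a | a ∈ A ∧ b * a * b⁻¹ ∈ Nz P}.Finite :=
      conj_fin h.hyp.sa.dp.fin hNz (h.inv_fusion ht ht0 hinv hbP)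
    refine (hfin1.image (fun a => a * x)).subset ?_
    rintro x' ⟨hx', hinf⟩
    refine ⟨x' * x⁻¹, ⟨A.mul_mem hx' (A.inv_mem hx), ?_⟩, by show x' * x⁻¹ * x = x'; group⟩
    by_contra hw
    apply hinf
    set w := b * (x' * x⁻¹) * b⁻¹ with hwd
    have hfin2 : {a | a ∈ A ∧ w * a * w⁻¹ ∈ A}.Finite :=
      conj_fin h.hyp.sa.dp.fin h.hyp.sa.dp.fin (h.inv_fusion ht ht0 hinv hw)
    refine (hfin2.image (fun a => (b * x)⁻¹ * a * (b * x))).subset ?_
    rintro g ⟨hg1, hg2⟩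
    refine ⟨(b * x) * g * (b * x)⁻¹, ⟨hg1, ?_⟩, by
      show (b * x)⁻¹ * ((b * x) * g * (b * x)⁻¹) * (b * x) = g
      group⟩
    have h1 : w * ((b * x) * g * (b * x)⁻¹) * w⁻¹ = (b * x') * g * (b * x')⁻¹ := by
      rw [hwd]
      group
    rw [h1]
    exact hg2

end H36.CH
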